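import Pool.Agent.Work.MP_b5407d_lp_helper90.IBP

/-!
# Block BOC: Bochner formula
-/

set_option autoImplicit false

namespace Pool.Agent.Work.LPBM.helper90

open MeasureTheory Real Filter Topology
open Pool.Agent.Work.LPBM
open scoped ContDiff

variable {n : ℕ}

theorem smooth_five {u : E n → ℝ} (hu : ContDiff ℝ ∞ u) : ContDiff ℝ 5 u :=
  contDiff_infty.1 hu 5

theorem pd_pd {f : E n → ℝ} (i j : Fin n) (hf : ContDiff ℝ 2 f) (x : E n) :
    pd i (pd j f) x = fderiv ℝ (fderiv ℝ f) x (EuclideanSpace.single i 1)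
      (EuclideanSpace.single j 1) := by
  unfold pd
  have h1 : DifferentiableAt ℝ (fderiv ℝ f) x :=
    ((hf.fderiv_right (m := 1) (by norm_num)).differentiable one_ne_zero).differentiableAt
  have h2 := (h1.hasFDerivAt.clm_apply
    (hasFDerivAt_const (EuclideanSpace.single j (1 : ℝ) : E n) x)).fderiv
  rw [h2]
  simp

theorem pd_comm {f : E n → ℝ} (i j : Fin n) (hf : ContDiff ℝ 2 f) (x : E n) :
    pd i (pd j f) x = pd j (pd i f) x := by
  rw [pd_pd i j hf, pd_pd j i hf]
  exact (hf.contDiffAt.isSymmSndFDerivAt (by simp)) _ _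

theorem pd_sum {ι : Type} (s : Finset ι) {F : ι → E n → ℝ} (j : Fin n) {x : E n}
    (hF : ∀ i ∈ s, DifferentiableAt ℝ (F i) x) :
    pd j (fun y => ∑ i ∈ s, F i y) x = ∑ i ∈ s, pd j (F i) x := by
  unfold pd
  rw [fderiv_fun_sum hF]
  simp

theorem pd_sub {f g : E n → ℝ} (j : Fin n) {x : E n} (hf : DifferentiableAt ℝ f x)
    (hg : DifferentiableAt ℝ g x) :
    pd j (fun y => f y - g y) x = pd j f x - pd j g x := by
  unfold pd
  rw [fderiv_fun_sub hf hg]
  simp

theorem contDiff_Lop {V u : E n → ℝ} (hV : ContDiff ℝ 2 V) (hu : ContDiff ℝ ∞ u) :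
    ContDiff ℝ 1 (Lop V u) := by
  unfold Lop
  refine ContDiff.sum fun j _ => ?_
  have h1 : ContDiff ℝ 2 (pd j u) := contDiff_pd j (smooth_five hu) (by norm_num)
  exact (contDiff_pd j h1 (by norm_num)).sub
    ((contDiff_pd j hV (by norm_num)).mul (h1.of_le (by norm_num)))

theorem pd_Lop {V u : E n → ℝ} (hV : ContDiff ℝ 2 V) (hu : ContDiff ℝ ∞ u) (j : Fin n) (x : E n) :
    pd j (Lop V u) x = Lop V (pd j u) x - ∑ i, pd j (pd i V) x * pd i u x := by
  have h4 : ∀ i : Fin n, ContDiff ℝ 4 (pd i u) := fun i =>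
    contDiff_pd i (smooth_five hu) (by norm_num)
  have h3 : ∀ i k : Fin n, ContDiff ℝ 3 (pd i (pd k u)) := fun i k =>
    contDiff_pd i (h4 k) (by norm_num)
  have hV1 : ∀ i : Fin n, ContDiff ℝ 1 (pd i V) := fun i => contDiff_pd i hV (by norm_num)
  have hVd : ∀ i : Fin n, DifferentiableAt ℝ (pd i V) x := fun i =>
    ((hV1 i).differentiable one_ne_zero).differentiableAt
  have hud : ∀ i : Fin n, DifferentiableAt ℝ (pd i u) x := fun i =>
    ((h4 i).differentiable (by norm_num)).differentiableAt
  have hudd : ∀ i k : Fin n, DifferentiableAt ℝ (pd i (pd k u)) x := fun i k =>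
    ((h3 i k).differentiable (by norm_num)).differentiableAt
  have e0 : Lop V u = fun y => ∑ i, (pd i (pd i u) y - pd i V y * pd i u y) := rfl
  rw [e0, pd_sum (F := fun i y => pd i (pd i u) y - pd i V y * pd i u y) _ j
    (fun i _ => (hudd i i).sub ((hVd i).mul (hud i)))]
  unfold Lop
  rw [← Finset.sum_sub_distrib]
  refine Finset.sum_congr rfl fun i _ => ?_
  rw [pd_sub (f := pd i (pd i u)) (g := fun y => pd i V y * pd i u y) j (hudd i i)
    ((hVd i).mul (hud i)), pd_mul j (hVd i) (hud i)]
  have e1 : pd j (pd i (pd i u)) x = pd i (pd i (pd j u)) x := by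
    rw [pd_comm j i ((h4 i).of_le (by norm_num))]
    congr 1
    funext y
    exact pd_comm j i ((smooth_five hu).of_le (by norm_num)) y
  have e2 : pd j (pd i u) x = pd i (pd j u) x := pd_comm j i ((smooth_five hu).of_le (by norm_num)) x
  rw [e1, e2]
  ring

theorem stmt_BOC (hIBP : Stmt_IBP) : Stmt_BOC := by
  intro n V u hV hu
  obtain ⟨hu, hc⟩ := hu
  have hV1 : ContDiff ℝ 1 V := hV.of_le (by norm_num)
  have h4 : ∀ i : Fin n, ContDiff ℝ 4 (pd i u) := fun i =>
    contDiff_pd i (smooth_five hu) (by norm_num)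
  have hVc : ∀ i j : Fin n, Continuous (pd i (pd j V)) := fun i j =>
    continuous_pd i (contDiff_pd j hV (by norm_num))
  have hwc : Continuous (wt V) := (contDiff_wt hV1).continuous
  have huc : ∀ i : Fin n, Continuous (pd i u) := fun i => (h4 i).continuous
  have hcc : ∀ i : Fin n, HasCompactSupport (pd i u) := fun i => hasCompactSupport_pd i hc
  -- first integration by parts
  have e1 := hIBP n V (Lop V u) u hV1 (contDiff_Lop hV hu) ((smooth_five hu).of_le (by norm_num)) hc
  -- second integration by parts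
  have e2 : ∀ j : Fin n, ∫ x, pd j u x * Lop V (pd j u) x * wt V x =
      - ∫ x, (∑ i, pd i (pd j u) x * pd i (pd j u) x) * wt V x := fun j =>
    hIBP n V (pd j u) (pd j u) hV1 ((h4 j).of_le (by norm_num)) ((h4 j).of_le (by norm_num)) (hcc j)
  have hLc : ∀ j : Fin n, Continuous (Lop V (pd j u)) := by
    intro j
    unfold Lop
    refine continuous_finsetSum _ fun i _ => ?_
    exact (continuous_pd i ((contDiff_pd i (h4 j) (m := 3) (by norm_num)).of_le (by norm_num))).sub
      ((continuous_pd i hV1).mul (continuous_pd i ((h4 j).of_le (by norm_num))))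
  have i1 : ∀ j : Fin n, Integrable (fun x => pd j u x * Lop V (pd j u) x * wt V x) := fun j =>
    (((huc j).mul (hLc j)).mul hwc).integrable_of_hasCompactSupport
      ((hcc j).mul_right.mul_right)
  have i2 : Integrable (fun x => hq V u x * wt V x) := by
    have hqc : Continuous (hq V u) := by
      unfold hq
      exact continuous_finsetSum _ fun i _ => continuous_finsetSum _ fun j _ =>
        ((hVc i j).mul (huc i)).mul (huc j)
    refine (hqc.mul hwc).integrable_of_hasCompactSupport ?_
    have : HasCompactSupport (hq V u) := by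
      refine hc.mono' (fun x hx => ?_)
      by_contra h
      apply hx
      unfold hq
      refine Finset.sum_eq_zero fun i _ => Finset.sum_eq_zero fun j _ => ?_
      have : pd j u x = 0 := by
        unfold pd
        rw [fderiv_of_notMem_tsupport ℝ h]
        simp
      rw [this, mul_zero]
    exact this.mul_right
  have i3 : ∀ j : Fin n, Integrable (fun x => (∑ i, pd i (pd j u) x * pd i (pd j u) x) * wt V x) := by
    intro j
    have hcont : ∀ i : Fin n, Continuous (pd i (pd j u)) := fun i =>
      continuous_pd i ((h4 j).of_le (by norm_num))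
    refine ((continuous_finsetSum _ fun i _ => (hcont i).mul (hcont i)).mul
      hwc).integrable_of_hasCompactSupport ?_
    have : HasCompactSupport (fun x => ∑ i, pd i (pd j u) x * pd i (pd j u) x) := by
      refine (hcc j).mono' (fun x hx => ?_)
      by_contra h
      apply hx
      refine Finset.sum_eq_zero fun i _ => ?_
      have : pd i (pd j u) x = 0 := by
        unfold pd at h ⊢
        rw [fderiv_of_notMem_tsupport ℝ h]
        simp
      rw [this, mul_zero]
    exact this.mul_right
  have a1 : ∀ x, (Lop V u x) ^ 2 * wt V x = Lop V u x * Lop V u x * wt V x := fun x => by ring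
  have a2 : ∀ x, (∑ j, pd j (Lop V u) x * pd j u x) * wt V x =
      (∑ j, pd j u x * Lop V (pd j u) x * wt V x) - hq V u x * wt V x := by
    intro x
    have : hq V u x = ∑ j, ∑ i, pd j (pd i V) x * pd i u x * pd j u x := by
      unfold hq
      refine Finset.sum_congr rfl fun i _ => Finset.sum_congr rfl fun j _ => ?_
      ring
    rw [this, Finset.sum_mul, Finset.sum_mul, ← Finset.sum_sub_distrib]
    refine Finset.sum_congr rfl fun j _ => ?_
    rw [pd_Lop hV hu j x, ← Finset.sum_mul]
    ring
  have a3 : ∀ x, (hs u x + hq V u x) * wt V x =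
      (∑ j, (∑ i, pd i (pd j u) x * pd i (pd j u) x) * wt V x) + hq V u x * wt V x := by
    intro x
    unfold hs
    rw [add_mul, Finset.sum_comm, Finset.sum_mul]
    congr 1
    refine Finset.sum_congr rfl fun j _ => ?_
    congr 1
    refine Finset.sum_congr rfl fun i _ => ?_
    ring
  simp_rw [a1]
  rw [e1]
  simp_rw [a2, a3]
  rw [integral_sub (integrable_finsetSum _ fun j _ => i1 j) i2,
    integral_add (integrable_finsetSum _ fun j _ => i3 j) i2,
    integral_finsetSum _ (fun j _ => i1 j), integral_finsetSum _ (fun j _ => i3 j)]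
  simp_rw [e2]
  rw [Finset.sum_neg_distrib]
  ring

end Pool.Agent.Work.LPBM.helper90
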