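import Pool.Agent.Work.MP_b5407d_lp.Interface

/-!
# Block IBP: integration by parts
-/

set_option autoImplicit false

namespace Pool.Agent.Work.LPBM.helper90

open MeasureTheory Real Filter Topology
open Pool.Agent.Work.LPBM
open scoped ContDiff

variable {n : ℕ}

theorem contDiff_pd {m k : ℕ∞ω} {f : E n → ℝ} (j : Fin n) (hf : ContDiff ℝ k f)
    (hmk : m + 1 ≤ k) : ContDiff ℝ m (pd j f) := by
  unfold pd
  exact (hf.fderiv_right hmk).clm_apply contDiff_const

theorem continuous_pd {f : E n → ℝ} (j : Fin n) (hf : ContDiff ℝ 1 f) : Continuous (pd j f) :=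
  (contDiff_pd (m := 0) j hf (by norm_num)).continuous

theorem hasCompactSupport_pd {f : E n → ℝ} (j : Fin n) (hf : HasCompactSupport f) :
    HasCompactSupport (pd j f) := by
  unfold pd
  exact hf.fderiv_apply ℝ _

theorem pd_mul {f g : E n → ℝ} (j : Fin n) {x : E n} (hf : DifferentiableAt ℝ f x)
    (hg : DifferentiableAt ℝ g x) :
    pd j (fun y => f y * g y) x = pd j f x * g x + f x * pd j g x := by
  unfold pd
  rw [fderiv_fun_mul hf hg]
  simp only [add_apply, smul_apply, smul_eq_mul]
  ring

theorem contDiff_wt {m : ℕ∞ω} {V : E n → ℝ} (hV : ContDiff ℝ m V) : ContDiff ℝ m (wt V) := by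
  unfold wt
  exact hV.neg.exp

theorem pd_wt {V : E n → ℝ} (j : Fin n) {x : E n} (hV : DifferentiableAt ℝ V x) :
    pd j (wt V) x = - pd j V x * wt V x := by
  unfold pd wt
  have h := (hV.hasFDerivAt.neg).exp
  have h' : HasFDerivAt (fun x => rexp (-V x)) (rexp (-V x) • -fderiv ℝ V x) x := h
  rw [h'.fderiv]
  simp only [smul_apply, neg_apply, smul_eq_mul]
  ring

theorem ibp_one {f h : E n → ℝ} (j : Fin n) (hf : ContDiff ℝ 1 f) (hh : ContDiff ℝ 1 h)
    (hc : HasCompactSupport h) :
    ∫ x, f x * pd j h x = - ∫ x, pd j f x * h x := by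
  have h1 : Integrable (fun x => pd j f x * h x) :=
    ((continuous_pd j hf).mul hh.continuous).integrable_of_hasCompactSupport hc.mul_left
  have h2 : Integrable (fun x => f x * pd j h x) :=
    (hf.continuous.mul (continuous_pd j hh)).integrable_of_hasCompactSupport
      (hasCompactSupport_pd j hc).mul_left
  have h3 : Integrable (fun x => f x * h x) :=
    (hf.continuous.mul hh.continuous).integrable_of_hasCompactSupport hc.mul_left
  exact integral_mul_fderiv_eq_neg_fderiv_mul_of_integrable h1 h2 h3
    (fun x _ => (hf.differentiable one_ne_zero).differentiableAt)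
    (fun x _ => (hh.differentiable one_ne_zero).differentiableAt)

theorem stmt_IBP : Stmt_IBP := by
  intro n V f g hV hf hg hc
  have hgj : ∀ j, ContDiff ℝ 1 (pd j g) := fun j => contDiff_pd j hg (by norm_num)
  have hw : ContDiff ℝ 1 (wt V) := contDiff_wt hV
  have hh : ∀ j, ContDiff ℝ 1 (fun x => pd j g x * wt V x) := fun j => (hgj j).mul hw
  have hhc : ∀ j, HasCompactSupport (fun x => pd j g x * wt V x) := fun j =>
    (hasCompactSupport_pd j hc).mul_right
  have hVd : Differentiable ℝ V := hV.differentiable one_ne_zero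
  have hwd : Differentiable ℝ (wt V) := hw.differentiable one_ne_zero
  have key : ∀ x, f x * Lop V g x * wt V x = ∑ j, f x * pd j (fun y => pd j g y * wt V y) x := by
    intro x
    unfold Lop
    rw [Finset.mul_sum, Finset.sum_mul]
    refine Finset.sum_congr rfl fun j _ => ?_
    rw [pd_mul j ((hgj j).differentiable one_ne_zero).differentiableAt hwd.differentiableAt,
      pd_wt j hVd.differentiableAt]
    ring
  have key2 : ∀ x, (∑ j, pd j f x * pd j g x) * wt V x =
      ∑ j, pd j f x * (pd j g x * wt V x) := by
    intro x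
    rw [Finset.sum_mul]
    exact Finset.sum_congr rfl fun j _ => mul_assoc _ _ _
  simp_rw [key, key2]
  rw [integral_finsetSum, integral_finsetSum, ← Finset.sum_neg_distrib]
  · exact Finset.sum_congr rfl fun j _ => ibp_one j hf (hh j) (hhc j)
  · intro j _
    exact ((continuous_pd j hf).mul (hh j).continuous).integrable_of_hasCompactSupport
      (hhc j).mul_left
  · intro j _
    exact (hf.continuous.mul (continuous_pd j (hh j))).integrable_of_hasCompactSupport
      (hasCompactSupport_pd j (hhc j)).mul_left

end Pool.Agent.Work.LPBM.helper90
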